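import Pool.Agent.R677.WordInt
import Pool.Agent.R677.CharInt

/-!
# Quotients of semi-rational groups are semi-rational
-/

set_option autoImplicit false

open scoped BigOperators Classical
open CategoryTheory

noncomputable section

namespace Pool.Agent.Results.MP_405423_al.QuotientSemiRational

/-- `wordCount w g` is the number of tuples in `G` at which the word `w` takes the value `g`. -/
def wordCount {G : Type} [Group G] {r : ℕ} (w : FreeGroup (Fin r)) (g : G) : ℕ :=
  Nat.card {x : Fin r → G // FreeGroup.lift x w = g}

/-- `G` is semi-rational: for every word `w` in `r ≥ 1` variables and every irreducible complex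
representation `V` of `G`, the inner product of the class function `wordCount w` with the character
of `V` is an integer. -/
def SemiRational (G : Type) [Group G] [Fintype G] : Prop :=
  ∀ (r : ℕ) (w : FreeGroup (Fin r)), 1 ≤ r → ∀ V : FDRep ℂ G, Simple V →
    ∃ m : ℤ, (Nat.card G : ℂ)⁻¹ * ∑ g : G, (wordCount w g : ℂ) * star (V.character g) = m

open Pool.Agent.R677

lemma sum_wordCount {G : Type} [Group G] [Fintype G] {r : ℕ} (w : FreeGroup (Fin r))
    (f : G → ℂ) :
    ∑ g : G, (wordCount w g : ℂ) * f g = ∑ x : Fin r → G, f (FreeGroup.lift x w) := by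
  rw [← Finset.sum_fiberwise (s := Finset.univ) (g := fun x : Fin r → G => FreeGroup.lift x w)]
  refine Finset.sum_congr rfl fun g _ => ?_
  have h1 : ∀ x ∈ Finset.univ.filter (fun x : Fin r → G => FreeGroup.lift x w = g),
      f (FreeGroup.lift x w) = f g := by
    intro x hx
    rw [Finset.mem_filter] at hx
    rw [hx.2]
  rw [Finset.sum_congr rfl h1, Finset.sum_const, nsmul_eq_mul]
  congr 2
  rw [wordCount, Nat.card_eq_fintype_card, Fintype.card_subtype]

lemma map_lift {G Q : Type} [Group G] [Group Q] {r : ℕ} (φ : G →* Q) (x : Fin r → G)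
    (w : FreeGroup (Fin r)) :
    φ (FreeGroup.lift x w) = FreeGroup.lift (fun i => φ (x i)) w := by
  have h : φ.comp (FreeGroup.lift x) = FreeGroup.lift (fun i => φ (x i)) := by
    ext i
    simp
  rw [← h]; rfl

/-- the homomorphism between powers induced by a homomorphism -/
def powMap {G Q : Type} [Group G] [Group Q] (r : ℕ) (φ : G →* Q) : (Fin r → G) →* (Fin r → Q) where
  toFun x i := φ (x i)
  map_one' := by ext i; simp
  map_mul' x y := by ext i; simp

lemma powMap_surj {G Q : Type} [Group G] [Group Q] (r : ℕ) (φ : G →* Q)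
    (hφ : Function.Surjective φ) : Function.Surjective (powMap r φ) := by
  intro y
  choose g hg using hφ
  exact ⟨fun i => g (y i), by ext i; simp [powMap, hg]⟩

lemma powMap_ker {G Q : Type} [Group G] [Group Q] [Finite G] (r : ℕ) (φ : G →* Q) :
    Nat.card (powMap r φ).ker = Nat.card φ.ker ^ r := by
  have e : (powMap r φ).ker ≃ (Fin r → φ.ker) :=
    { toFun := fun x i => ⟨x.1 i, by
        have := x.2
        rw [MonoidHom.mem_ker] at this
        rw [MonoidHom.mem_ker]
        exact congrFun this i⟩
      invFun := fun y => ⟨fun i => (y i).1, by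
        rw [MonoidHom.mem_ker]
        ext i
        have := (y i).2
        rw [MonoidHom.mem_ker] at this
        exact this⟩
      left_inv := fun x => rfl
      right_inv := fun y => rfl }
  rw [Nat.card_congr e, Nat.card_fun]
  simp

/-- Every quotient of a finite semi-rational group is semi-rational. -/
theorem result (G : Type) [Group G] [Fintype G] (hG : SemiRational G)
    (N : Subgroup G) [N.Normal] [Fintype (G ⧸ N)] : SemiRational (G ⧸ N) := by
  intro r w hr V hV
  set φ : G →* G ⧸ N := QuotientGroup.mk' N with hφ
  have hs : Function.Surjective φ := QuotientGroup.mk'_surjective N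
  obtain ⟨m, hm⟩ := hG r w hr (CharInt.infl φ V) (CharInt.infl_simple φ hs V hV)
  rw [sum_wordCount] at hm ⊢
  have h1 : ∑ x : Fin r → G, star ((CharInt.infl φ V).character (FreeGroup.lift x w)) =
      (Nat.card φ.ker : ℂ) ^ r *
        ∑ y : Fin r → G ⧸ N, star (V.character (FreeGroup.lift y w)) := by
    have h2 := CharInt.sum_comp (powMap r φ) (powMap_surj r φ hs)
      (fun y => star (V.character (FreeGroup.lift y w)))
    rw [powMap_ker] at h2
    push_cast at h2
    rw [← h2]
    refine Finset.sum_congr rfl fun x _ => ?_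
    rw [CharInt.infl_char, map_lift]
    rfl
  rw [h1, CharInt.card_eq φ hs] at hm
  have hN : (Nat.card φ.ker : ℂ) ≠ 0 := by
    have : 0 < Nat.card φ.ker := Nat.card_pos
    exact_mod_cast this.ne'
  have hQ : (Nat.card (G ⧸ N) : ℂ) ≠ 0 := by
    have : 0 < Nat.card (G ⧸ N) := Nat.card_pos
    exact_mod_cast this.ne'
  obtain ⟨k, rfl⟩ : ∃ k, r = k + 1 := ⟨r - 1, by omega⟩
  rcases Nat.eq_zero_or_pos k with rfl | hk
  · refine ⟨m, ?_⟩
    rw [← hm]
    push_cast
    field_simp
  · obtain ⟨s, hs1, hs2⟩ := WordInt.sum_word (Q := G ⧸ N) (r := k + 1) (by omega) w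
      (fun q => star (V.character q)) (fun q x => by rw [FDRep.char_conj])
      (fun x => CharInt.isIntegral_star (CharInt.isIntegral_char V x))
    rw [hs2] at hm ⊢
    obtain ⟨m', hm'⟩ := CharInt.int_of_rat hs1 m ((Nat.card φ.ker : ℤ) ^ k)
      (by
        have : 0 < Nat.card φ.ker := Nat.card_pos
        positivity)
      (by
        rw [← hm]
        push_cast
        field_simp
        ring)
    refine ⟨m', ?_⟩
    rw [← hm']
    field_simp

end Pool.Agent.Results.MP_405423_al.QuotientSemiRational
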